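import Pool.Agent.X143.HC.Crit

/-!
# Appell sequences of real polynomials
-/

set_option autoImplicit false

namespace Pool.Agent.X143.HC

open Polynomial

/-- the Appell polynomials `P_n = ∑_{k ≤ n} C(n,k) c_k X^{n-k}` -/
noncomputable def P (c : ℕ → ℝ) (n : ℕ) : ℝ[X] :=
  ∑ k ∈ Finset.range (n + 1), C ((n.choose k : ℝ) * c k) * X ^ (n - k)

lemma P_eval (c : ℕ → ℝ) (n : ℕ) (t : ℝ) :
    (P c n).eval t = ∑ k ∈ Finset.range (n + 1), (n.choose k : ℝ) * c k * t ^ (n - k) := by
  unfold P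
  simp [eval_finset_sum]

lemma P_derivative (c : ℕ → ℝ) (n : ℕ) :
    derivative (P c (n + 1)) = C ((n : ℝ) + 1) * P c n := by
  unfold P
  rw [Finset.sum_range_succ, derivative_add, derivative_sum]
  simp only [Nat.sub_self, pow_zero, mul_one, derivative_C, add_zero]
  rw [Finset.mul_sum]
  refine Finset.sum_congr rfl fun k hk => ?_
  have hk' : k ≤ n := by rw [Finset.mem_range] at hk; omega
  rw [derivative_C_mul, derivative_X_pow, ← mul_assoc, ← mul_assoc, ← C_mul, ← C_mul]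
  have e : n + 1 - k - 1 = n - k := by omega
  rw [e]
  congr 2
  have h1 : ((n + 1).choose k : ℝ) * ((n + 1 - k : ℕ) : ℝ) = ((n : ℝ) + 1) * (n.choose k : ℝ) := by
    have := Nat.choose_mul_succ_eq n k
    have h2 : (n.choose k : ℝ) * ((n : ℝ) + 1) = ((n + 1).choose k : ℝ) * ((n + 1 - k : ℕ) : ℝ) := by
      exact_mod_cast this
    linarith
  rw [mul_right_comm, h1]
  ring

/-- the polynomials `F_n = P_n - ν/(n+1) P_{n+1}`, again an Appell sequence -/
noncomputable def F (c : ℕ → ℝ) (ν : ℝ) (n : ℕ) : ℝ[X] :=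
  P c n - C (ν / ((n : ℝ) + 1)) * P c (n + 1)

lemma F_derivative (c : ℕ → ℝ) (ν : ℝ) (n : ℕ) :
    derivative (F c ν (n + 1)) = C ((n : ℝ) + 1) * F c ν n := by
  unfold F
  rw [derivative_sub, P_derivative, derivative_C_mul, P_derivative, mul_sub, ← mul_assoc,
    ← mul_assoc, ← C_mul, ← C_mul]
  congr 3
  push_cast
  have h1 : (n : ℝ) + 1 ≠ 0 := by positivity
  have h2 : (n : ℝ) + 1 + 1 ≠ 0 := by positivity
  field_simp

lemma P_natDegree (c : ℕ → ℝ) (n : ℕ) : (P c n).natDegree ≤ n := by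
  unfold P
  refine natDegree_sum_le_of_forall_le _ _ fun k _ => ?_
  exact (natDegree_C_mul_X_pow_le _ _).trans (Nat.sub_le _ _)

lemma F_natDegree (c : ℕ → ℝ) (ν : ℝ) (n : ℕ) : (F c ν n).natDegree ≤ n + 1 := by
  unfold F
  refine (natDegree_sub_le _ _).trans (max_le ((P_natDegree c n).trans (by omega)) ?_)
  exact (natDegree_C_mul_le _ _).trans (P_natDegree c (n + 1))

/-- roots are not changed by a nonzero constant -/
lemma roots_F_derivative (c : ℕ → ℝ) (ν : ℝ) (n : ℕ) :
    (derivative (F c ν (n + 1))).roots = (F c ν n).roots := by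
  rw [F_derivative, roots_C_mul]
  positivity

/-- `c` is a critical zero of `F_n` (for `n ≥ 1`). -/
def IsCrit (c : ℕ → ℝ) (ν : ℝ) (n : ℕ) (t : ℝ) : Prop :=
  (F c ν (n + 1)).eval t = 0 ∧ 0 < (F c ν (n + 2)).eval t * (F c ν n).eval t

lemma crit_step (c : ℕ → ℝ) (ν : ℝ) (n : ℕ) (S : Finset ℝ) (hS : ∀ t ∈ S, IsCrit c ν n t) :
    Multiset.card (F c ν (n + 2)).roots + 2 * S.card ≤ Multiset.card (F c ν (n + 1)).roots + 1 := by
  have h := crit_card (F c ν (n + 2)) S (fun t ht => by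
    obtain ⟨h1, h2⟩ := hS t ht
    rw [F_derivative, derivative_C_mul, F_derivative]
    simp only [eval_mul, eval_C]
    refine ⟨by rw [h1, mul_zero], ?_⟩
    have e : (F c ν (n + 2)).eval t * (((n + 1 : ℕ) : ℝ) + 1) * (((n : ℝ) + 1) * (F c ν n).eval t) =
        (((n + 1 : ℕ) : ℝ) + 1) * ((n : ℝ) + 1) * ((F c ν (n + 2)).eval t * (F c ν n).eval t) := by
      ring
    rw [← mul_assoc, e]
    positivity)
  rwa [roots_F_derivative] at h

/-- **the total number of critical zeros** -/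
theorem crit_total (c : ℕ → ℝ) (ν : ℝ) (S : ℕ → Finset ℝ) (M : ℕ)
    (hS : ∀ n < M, ∀ t ∈ S n, IsCrit c ν n t) :
    2 * ∑ n ∈ Finset.range M, (S n).card ≤ M + 2 := by
  have h : Multiset.card (F c ν (M + 1)).roots + 2 * ∑ n ∈ Finset.range M, (S n).card ≤
      Multiset.card (F c ν 1).roots + M := by
    induction M with
    | zero => simp
    | succ M ih =>
      have h1 := ih (fun n hn => hS n (by omega))
      have h2 := crit_step c ν M (S M) (hS M (by omega))
      rw [Finset.sum_range_succ, mul_add, show M + 1 + 1 = M + 2 from rfl]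
      omega
  have h3 : Multiset.card (F c ν 1).roots ≤ 2 :=
    (card_roots' _).trans (F_natDegree c ν 1)
  omega

end Pool.Agent.X143.HC
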