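import Pool.Agent.X143.HC.Good

/-!
# Counting
-/

set_option autoImplicit false

namespace Pool.Agent.X143.HC

open Polynomial MeasureTheory

/-- a grid adapted to `n` -/
lemma grid (c : ℕ → ℝ) {β : ℝ} (hβ : 0 < β) (n : ℕ) : ∃ (L : ℕ) (I : Finset ℕ), 0 < L ∧
    (∀ t ∈ Set.Ico (0 : ℝ) 1, SG c β n t → ∃ i ∈ I, t ∈ Set.Ico ((i : ℝ) / L) (((i : ℝ) + 1) / L)) ∧
    (∀ i ∈ I, ∀ t ∈ Set.Icc ((i : ℝ) / L) (((i : ℝ) + 1) / L), RG c n t) := by
  classical
  obtain ⟨δ, hδ, h⟩ := exists_delta c hβ n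
  obtain ⟨L, hL⟩ := exists_nat_gt (1 / δ)
  have hL0 : (0 : ℝ) < L := lt_trans (by positivity) hL
  have hLn : 0 < L := by exact_mod_cast hL0
  have hLδ : 1 / (L : ℝ) ≤ δ := by
    rw [div_le_iff₀ hL0]
    rw [div_lt_iff₀ hδ] at hL
    linarith
  refine ⟨L, (Finset.range L).filter fun i => ∃ t ∈ Set.Icc ((i : ℝ) / L) (((i : ℝ) + 1) / L),
    SG c β n t, hLn, fun t ht hsg => ?_, fun i hi t ht => ?_⟩
  · have h1 : 0 ≤ t * L := mul_nonneg ht.1 hL0.le
    have h2 := Nat.floor_le h1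
    have h3 := Nat.lt_floor_add_one (t * L)
    have h4 : t ∈ Set.Ico ((⌊t * L⌋₊ : ℝ) / L) (((⌊t * L⌋₊ : ℝ) + 1) / L) :=
      ⟨by rw [div_le_iff₀ hL0]; exact h2, by rw [lt_div_iff₀ hL0]; exact h3⟩
    refine ⟨⌊t * L⌋₊, ?_, h4⟩
    rw [Finset.mem_filter, Finset.mem_range]
    refine ⟨?_, t, Set.Ico_subset_Icc_self h4, hsg⟩
    rw [Nat.floor_lt h1]
    nlinarith [ht.2]
  · rw [Finset.mem_filter, Finset.mem_range] at hi
    obtain ⟨hiL, u, hu, hsg⟩ := hi
    have hi1 : ((i : ℝ) + 1) / L ≤ 1 := by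
      rw [div_le_one hL0]
      exact_mod_cast hiL
    have hi0 : 0 ≤ (i : ℝ) / L := by positivity
    refine h u ⟨hi0.trans hu.1, hu.2.trans hi1⟩ hsg t ⟨hi0.trans ht.1, ht.2.trans hi1⟩ ?_
    have e : ((i : ℝ) + 1) / L = (i : ℝ) / L + 1 / L := by ring
    rw [e] at hu ht
    rw [abs_le]
    constructor <;> linarith [hu.1, hu.2, ht.1, ht.2]

section
variable {c : ℕ → ℝ} {n : ℕ} {a b : ℝ}

lemma nu_cont (h : ∀ t ∈ Set.Icc a b, RG c n t) : ContinuousOn (nu c n) (Set.Icc a b) := by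
  intro t ht
  obtain ⟨d, hd, -⟩ := nu_hasDerivAt (h t ht)
  exact hd.continuousAt.continuousWithinAt

lemma nu_incr (hab : a < b) (h : ∀ t ∈ Set.Icc a b, RG c n t) :
    (n : ℝ) ^ 2 / 2 * (b - a) ≤ nu c n b - nu c n a := by
  have h1 : ∀ t ∈ Set.Icc a b, HasDerivAt (nu c n) (deriv (nu c n) t) t ∧
      (n : ℝ) ^ 2 / 2 ≤ deriv (nu c n) t := by
    intro t ht
    obtain ⟨d, hd, hd2⟩ := nu_hasDerivAt (h t ht)
    rw [hd.deriv]
    exact ⟨hd, hd2⟩
  obtain ⟨u, hu, h2⟩ := exists_hasDerivAt_eq_slope (nu c n) (deriv (nu c n)) hab (nu_cont h)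
    (fun t ht => (h1 t (Set.Ioo_subset_Icc_self ht)).1)
  have h3 := (h1 u (Set.Ioo_subset_Icc_self hu)).2
  rw [h2, le_div_iff₀ (by linarith)] at h3
  exact h3

end

/-- the image intervals -/
noncomputable def W (c : ℕ → ℝ) (L : ℕ → ℕ) (n i : ℕ) : Set ℝ :=
  Set.Ico (nu c n ((i : ℝ) / L n)) (nu c n (((i : ℝ) + 1) / L n))

section
variable (c : ℕ → ℝ) (L : ℕ → ℕ) (I : ℕ → Finset ℕ) (hL : ∀ n, 0 < L n)
  (hI : ∀ n, ∀ i ∈ I n, ∀ t ∈ Set.Icc ((i : ℝ) / L n) (((i : ℝ) + 1) / L n), RG c n t)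
include hL hI

lemma mem_W {n i : ℕ} (hi : i ∈ I n) {ν : ℝ} (hν : ν ∈ W c L n i) :
    ∃ t ∈ Set.Ico ((i : ℝ) / L n) (((i : ℝ) + 1) / L n), nu c n t = ν := by
  have hL0 : (0 : ℝ) < L n := by exact_mod_cast hL n
  have hab : (i : ℝ) / L n ≤ ((i : ℝ) + 1) / L n :=
    div_le_div_of_nonneg_right (by linarith) hL0.le
  exact intermediate_value_Ico hab (nu_cont (hI n i hi)) hν

lemma W_bound {M n i : ℕ} (hn : n < M) (hi : i ∈ I n) {ν : ℝ} (hν : ν ∈ W c L n i) :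
    ν ∈ Set.Icc (-(((M : ℝ) + 1) / 8)) (((M : ℝ) + 1) / 8) := by
  obtain ⟨t, ht, rfl⟩ := mem_W c L I hL hI hi hν
  have h1 := nu_le (hI n i hi t (Set.Ico_subset_Icc_self ht))
  have h2 : (n : ℝ) + 1 ≤ M := by exact_mod_cast hn
  rw [Set.mem_Icc, ← abs_le]
  linarith

open Classical in
lemma mult (M : ℕ) (ν : ℝ) :
    2 * ∑ n ∈ Finset.range M, ((I n).filter fun i => ν ∈ W c L n i).card ≤ M + 2 := by
  have hch : ∀ n i : ℕ, ∃ t : ℝ, i ∈ I n → ν ∈ W c L n i →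
      (t ∈ Set.Ico ((i : ℝ) / L n) (((i : ℝ) + 1) / L n) ∧ nu c n t = ν) := by
    intro n i
    by_cases h : i ∈ I n ∧ ν ∈ W c L n i
    · obtain ⟨t, ht⟩ := mem_W c L I hL hI h.1 h.2
      exact ⟨t, fun _ _ => ht⟩
    · exact ⟨0, fun h1 h2 => absurd ⟨h1, h2⟩ h⟩
  choose t ht using hch
  have h := crit_total c ν (fun n => ((I n).filter fun i => ν ∈ W c L n i).image (t n)) M
    (fun n _ u hu => by
      obtain ⟨i, hi, rfl⟩ := Finset.mem_image.1 hu
      obtain ⟨hi1, hi2⟩ := Finset.mem_filter.1 hi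
      obtain ⟨h1, h2⟩ := ht n i hi1 hi2
      have h3 := crit_of_good (hI n i hi1 _ (Set.Ico_subset_Icc_self h1))
      rwa [h2] at h3)
  have hcard : ∀ n, (((I n).filter fun i => ν ∈ W c L n i).image (t n)).card =
      ((I n).filter fun i => ν ∈ W c L n i).card := by
    intro n
    apply Finset.card_image_of_injOn
    intro i hi j hj hij
    obtain ⟨hi1, hi2⟩ := Finset.mem_filter.1 (Finset.mem_coe.1 hi)
    obtain ⟨hj1, hj2⟩ := Finset.mem_filter.1 (Finset.mem_coe.1 hj)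
    obtain ⟨⟨a1, a2⟩, -⟩ := ht n i hi1 hi2
    obtain ⟨⟨b1, b2⟩, -⟩ := ht n j hj1 hj2
    have hL0 : (0 : ℝ) < L n := by exact_mod_cast hL n
    rw [hij] at a1 a2
    have c1 : (i : ℝ) / L n < ((j : ℝ) + 1) / L n := a1.trans_lt b2
    have c2 : (j : ℝ) / L n < ((i : ℝ) + 1) / L n := b1.trans_lt a2
    rw [div_lt_div_iff_of_pos_right hL0] at c1 c2
    have d1 : i < j + 1 := by exact_mod_cast c1
    have d2 : j < i + 1 := by exact_mod_cast c2
    omega
  simp only [hcard] at h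
  exact h

/-- **the counting inequality** -/
theorem count (M : ℕ) : ∑ n ∈ Finset.range M, (n : ℝ) ^ 2 * (((I n).card : ℝ) / L n) ≤
    ((M : ℝ) + 2) ^ 2 / 4 := by
  classical
  obtain ⟨A, hA⟩ : ∃ A, A = ((M : ℝ) + 1) / 8 := ⟨_, rfl⟩
  have hA0 : 0 ≤ A := by rw [hA]; positivity
  have hmeas : ∀ n i, MeasurableSet (W c L n i) := fun n i => measurableSet_Ico
  -- pointwise bound
  have hpt : ∀ ν : ℝ, 2 * ∑ n ∈ Finset.range M, ∑ i ∈ I n, (W c L n i).indicator (1 : ℝ → ENNReal) ν ≤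
      (Set.Icc (-A) A).indicator (fun _ => ((M : ENNReal) + 2)) ν := by
    intro ν
    have e1 : ∀ n, ∑ i ∈ I n, (W c L n i).indicator (1 : ℝ → ENNReal) ν =
        (((I n).filter fun i => ν ∈ W c L n i).card : ENNReal) := by
      intro n
      rw [Finset.card_filter]
      push_cast
      refine Finset.sum_congr rfl fun i _ => ?_
      rw [Set.indicator_apply]
      split_ifs <;> simp
    simp only [e1]
    by_cases hν : ν ∈ Set.Icc (-A) A
    · rw [Set.indicator_of_mem hν]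
      exact_mod_cast mult c L I hL hI M ν
    · rw [Set.indicator_of_notMem hν]
      have h0 : ∀ n ∈ Finset.range M, ((I n).filter fun i => ν ∈ W c L n i).card = 0 := by
        intro n hn
        rw [Finset.card_eq_zero, Finset.filter_eq_empty_iff]
        intro i hi hν'
        rw [hA] at hν
        exact hν (W_bound c L I hL hI (Finset.mem_range.1 hn) hi hν')
      rw [Finset.sum_eq_zero fun n hn => by rw [h0 n hn]; simp]
      simp
  have hint := lintegral_mono (μ := volume) hpt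
  rw [lintegral_const_mul _ (by
      refine Finset.measurable_sum _ fun n _ => Finset.measurable_sum _ fun i _ => ?_
      exact measurable_one.indicator (hmeas n i)),
    lintegral_finsetSum _ (by
      intro n _
      refine Finset.measurable_sum _ fun i _ => ?_
      exact measurable_one.indicator (hmeas n i)),
    lintegral_indicator measurableSet_Icc, lintegral_const, Measure.restrict_apply_univ,
    Real.volume_Icc] at hint
  have e2 : ∀ n, ∫⁻ ν, ∑ i ∈ I n, (W c L n i).indicator (1 : ℝ → ENNReal) ν =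
      ∑ i ∈ I n, volume (W c L n i) := by
    intro n
    rw [lintegral_finsetSum _ (fun i _ => measurable_one.indicator (hmeas n i))]
    exact Finset.sum_congr rfl fun i _ => lintegral_indicator_one (hmeas n i)
  simp only [e2] at hint
  -- lower bound of the volumes
  have hvol : ∀ n, ∀ i ∈ I n, ENNReal.ofReal ((n : ℝ) ^ 2 / 2 / L n) ≤ volume (W c L n i) := by
    intro n i hi
    have hL0 : (0 : ℝ) < L n := by exact_mod_cast hL n
    unfold W
    rw [Real.volume_Ico]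
    apply ENNReal.ofReal_le_ofReal
    have h1 := nu_incr (c := c) (n := n) (a := (i : ℝ) / L n) (b := ((i : ℝ) + 1) / L n)
      (div_lt_div_of_pos_right (by linarith) hL0) (hI n i hi)
    have e : ((i : ℝ) + 1) / L n - (i : ℝ) / L n = 1 / L n := by ring
    rw [e] at h1
    calc (n : ℝ) ^ 2 / 2 / L n = (n : ℝ) ^ 2 / 2 * (1 / L n) := by ring
      _ ≤ _ := h1
  have hlow : ENNReal.ofReal (2 * ∑ n ∈ Finset.range M, ((I n).card : ℝ) * ((n : ℝ) ^ 2 / 2 / L n)) ≤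
      2 * ∑ n ∈ Finset.range M, ∑ i ∈ I n, volume (W c L n i) := by
    rw [ENNReal.ofReal_mul (by norm_num), ENNReal.ofReal_sum_of_nonneg (fun n _ => by positivity)]
    rw [show ENNReal.ofReal 2 = 2 by simp]
    gcongr with n hn
    rw [ENNReal.ofReal_mul (by positivity), ENNReal.ofReal_natCast, ← nsmul_eq_mul,
      ← Finset.sum_const]
    exact Finset.sum_le_sum fun i hi => hvol n i hi
  have hfin := hlow.trans hint
  have e3 : ((M : ENNReal) + 2) * ENNReal.ofReal (A - -A) = ENNReal.ofReal (((M : ℝ) + 2) * (2 * A)) := by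
    rw [ENNReal.ofReal_mul (by positivity), ENNReal.ofReal_add (by positivity) (by norm_num),
      ENNReal.ofReal_natCast]
    rw [show ENNReal.ofReal 2 = 2 by simp]
    congr 2
    ring
  rw [e3, ENNReal.ofReal_le_ofReal_iff (by positivity)] at hfin
  have e4 : 2 * ∑ n ∈ Finset.range M, ((I n).card : ℝ) * ((n : ℝ) ^ 2 / 2 / L n) =
      ∑ n ∈ Finset.range M, (n : ℝ) ^ 2 * (((I n).card : ℝ) / L n) := by
    rw [Finset.mul_sum]
    refine Finset.sum_congr rfl fun n _ => ?_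
    ring
  rw [e4, hA] at hfin
  refine hfin.trans ?_
  have : (0 : ℝ) ≤ M := Nat.cast_nonneg M
  nlinarith

end

/-- the dyadic sum -/
lemma dyadic (a : ℕ → ℝ) (ha : ∀ n, 0 ≤ a n)
    (h : ∀ M : ℕ, ∑ n ∈ Finset.range M, (n : ℝ) ^ 2 * a n ≤ ((M : ℝ) + 2) ^ 2 / 4) (J K : ℕ)
    (hJK : J ≤ K) :
    ∑ n ∈ Finset.Ico (2 ^ J) (2 ^ K), a n / n ≤ 8 * (1 / 2) ^ J - 8 * (1 / 2) ^ K := by
  induction K, hJK using Nat.le_induction with
  | base => simp
  | succ K hK ih =>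
    rw [← Finset.sum_Ico_consecutive _ (Nat.pow_le_pow_right (by norm_num) hK)
      (Nat.pow_le_pow_right (by norm_num) (Nat.le_succ K))]
    have h1 : ∑ n ∈ Finset.Ico (2 ^ K) (2 ^ (K + 1)), a n / n ≤ 4 * (1 / 2) ^ K := by
      have h2 : ∀ n ∈ Finset.Ico (2 ^ K) (2 ^ (K + 1)), a n / n ≤
          ((1 / 2 : ℝ) ^ K) ^ 3 * ((n : ℝ) ^ 2 * a n) := by
        intro n hn
        have h3 := (Finset.mem_Ico.1 hn).1
        have h4 : (2 : ℝ) ^ K ≤ n := by exact_mod_cast h3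
        have h5 : (0 : ℝ) < 2 ^ K := by positivity
        have h6 : (0 : ℝ) < n := by linarith
        rw [div_le_iff₀ h6]
        have h7 : (1 : ℝ) ≤ ((1 / 2 : ℝ) ^ K) ^ 3 * (n : ℝ) ^ 3 := by
          rw [← mul_pow]
          apply one_le_pow₀
          have : (1 / 2 : ℝ) ^ K * 2 ^ K = 1 := by rw [← mul_pow]; norm_num
          calc (1 : ℝ) = (1 / 2 : ℝ) ^ K * 2 ^ K := this.symm
            _ ≤ _ := by gcongr
        calc a n = 1 * a n := (one_mul _).symm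
          _ ≤ ((1 / 2 : ℝ) ^ K) ^ 3 * (n : ℝ) ^ 3 * a n := mul_le_mul_of_nonneg_right h7 (ha n)
          _ = _ := by ring
      refine (Finset.sum_le_sum h2).trans ?_
      rw [← Finset.mul_sum]
      have h8 : ∑ n ∈ (Finset.Ico (2 ^ K) (2 ^ (K + 1)) : Finset ℕ), (n : ℝ) ^ 2 * a n ≤
          (((2 ^ (K + 1) : ℕ) : ℝ) + 2) ^ 2 / 4 := by
        refine le_trans (Finset.sum_le_sum_of_subset_of_nonneg ?_ fun n _ _ => ?_)
          (h (2 ^ (K + 1)))
        · intro n hn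
          exact Finset.mem_range.2 (Finset.mem_Ico.1 hn).2
        · have := ha n; positivity
      have h9 : (((2 ^ (K + 1) : ℕ) : ℝ) + 2) ^ 2 / 4 ≤ 4 * ((2 : ℝ) ^ K) ^ 2 := by
        push_cast
        rw [show (2 : ℝ) ^ (K + 1) = 2 ^ K * 2 from pow_succ _ _]
        have : (1 : ℝ) ≤ 2 ^ K := one_le_pow₀ (by norm_num)
        nlinarith
      have h10 : (1 / 2 : ℝ) ^ K * 2 ^ K = 1 := by rw [← mul_pow]; norm_num
      calc ((1 / 2 : ℝ) ^ K) ^ 3 * ∑ n ∈ (Finset.Ico (2 ^ K) (2 ^ (K + 1)) : Finset ℕ), (n : ℝ) ^ 2 * a n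
          ≤ ((1 / 2 : ℝ) ^ K) ^ 3 * (4 * ((2 : ℝ) ^ K) ^ 2) :=
            mul_le_mul_of_nonneg_left (h8.trans h9) (by positivity)
        _ = 4 * (1 / 2 : ℝ) ^ K * ((1 / 2 : ℝ) ^ K * 2 ^ K) ^ 2 := by ring
        _ = 4 * (1 / 2) ^ K := by rw [h10]; ring
    have e : (1 / 2 : ℝ) ^ (K + 1) = (1 / 2) ^ K * (1 / 2) := pow_succ _ _
    rw [e]
    linarith

end Pool.Agent.X143.HC
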