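import Mathlib

/-!
# Fourier critical points of real polynomials

The number of real zeros of `G'` is at least the number of real zeros of `G` minus one plus twice
the number of critical points `c` with `G'(c) = 0` and `G(c) G''(c) > 0`.
-/

set_option autoImplicit false

namespace Pool.Agent.X143.HC

open Polynomial

/-- right of a zero or of a critical point the derivative is positive somewhere -/
lemma right_pos (G : ℝ[X]) {x p : ℝ} (hxp : x < p) (hpos : ∀ u ∈ Set.Ioc x p, 0 < G.eval u)
    (hx : G.eval x = 0 ∨ (G.derivative.eval x = 0 ∧ 0 < G.eval x * G.derivative.derivative.eval x)) :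
    ∃ u ∈ Set.Ioo x p, 0 < G.derivative.eval u := by
  rcases hx with hx | ⟨hx1, hx2⟩
  · obtain ⟨u, hu, h⟩ := exists_deriv_eq_slope (fun t => G.eval t) hxp G.continuousOn
      G.differentiableOn
    refine ⟨u, hu, ?_⟩
    rw [Polynomial.deriv] at h
    rw [h, hx, sub_zero]
    exact div_pos (hpos p ⟨hxp, le_rfl⟩) (by linarith)
  · -- `G x ≥ 0` by continuity
    have hGx : 0 ≤ G.eval x := by
      by_contra hneg
      push Not at hneg
      have hc : ContinuousOn (fun t => G.eval t) (Set.Icc x p) := G.continuousOn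
      have : (0 : ℝ) ∈ Set.Ioo (G.eval x) (G.eval p) := ⟨hneg, hpos p ⟨hxp, le_rfl⟩⟩
      obtain ⟨w, hw, hw0⟩ := intermediate_value_Ioo hxp.le hc this
      have := hpos w ⟨hw.1, hw.2.le⟩
      simp only at hw0
      linarith
    have hG2 : 0 < G.derivative.derivative.eval x := by
      by_contra hneg
      push Not at hneg
      nlinarith [mul_nonneg hGx (neg_nonneg.2 hneg)]
    have hd : HasDerivAt (fun t => G.derivative.eval t) (G.derivative.derivative.eval x) x :=
      G.derivative.hasDerivAt x
    -- slope positive near x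
    have h1 : ∀ᶠ u in nhdsWithin x (Set.Ioi x), 0 < (G.derivative.eval u - G.derivative.eval x) / (u - x) := by
      have h2 := (hasDerivAt_iff_tendsto_slope.1 hd)
      have h3 : Filter.Tendsto (slope (fun t => G.derivative.eval t) x) (nhdsWithin x (Set.Ioi x))
          (nhds (G.derivative.derivative.eval x)) :=
        h2.mono_left (nhdsWithin_mono x (fun u hu => ne_of_gt hu))
      have h4 := h3.eventually (lt_mem_nhds hG2)
      filter_upwards [h4] with u hu
      rwa [slope_def_field] at hu
    have h5 : ∀ᶠ u in nhdsWithin x (Set.Ioi x), u ∈ Set.Ioo x p := Ioo_mem_nhdsGT hxp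
    obtain ⟨u, hu1, hu2⟩ := (h1.and h5).exists
    refine ⟨u, hu2, ?_⟩
    rw [hx1, sub_zero] at hu1
    have h6 : 0 < u - x := by linarith [hu2.1]
    exact (div_pos_iff_of_pos_right h6).1 hu1

/-- left of a zero or of a critical point the derivative is negative somewhere -/
lemma left_neg (G : ℝ[X]) {p y : ℝ} (hpy : p < y) (hpos : ∀ u ∈ Set.Ico p y, 0 < G.eval u)
    (hy : G.eval y = 0 ∨ (G.derivative.eval y = 0 ∧ 0 < G.eval y * G.derivative.derivative.eval y)) :
    ∃ u ∈ Set.Ioo p y, G.derivative.eval u < 0 := by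
  have e1 : ∀ t, (G.comp (-X)).eval t = G.eval (-t) := fun t => by simp
  have e2 : ∀ t, (G.comp (-X)).derivative.eval t = -(G.derivative.eval (-t)) := fun t => by
    simp [derivative_comp]
  have e3 : ∀ t, (G.comp (-X)).derivative.derivative.eval t = G.derivative.derivative.eval (-t) :=
    fun t => by simp [derivative_comp]
  obtain ⟨u, hu, h⟩ := right_pos (G.comp (-X)) (x := -y) (p := -p) (by linarith)
    (fun u hu => by rw [e1]; exact hpos _ ⟨by linarith [hu.2], by linarith [hu.1]⟩)
    (by
      rw [e1, e2, e3, neg_neg]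
      rcases hy with hy | ⟨h1, h2⟩
      · exact Or.inl hy
      · exact Or.inr ⟨by rw [h1, neg_zero], h2⟩)
  refine ⟨-u, ⟨by linarith [hu.2], by linarith [hu.1]⟩, ?_⟩
  rw [e2] at h
  linarith

lemma zero_between_pos (G : ℝ[X]) {x y : ℝ} (hxy : x < y) (hpos : ∀ u ∈ Set.Ioo x y, 0 < G.eval u)
    (hx : G.eval x = 0 ∨ (G.derivative.eval x = 0 ∧ 0 < G.eval x * G.derivative.derivative.eval x))
    (hy : G.eval y = 0 ∨ (G.derivative.eval y = 0 ∧ 0 < G.eval y * G.derivative.derivative.eval y)) :
    ∃ z ∈ Set.Ioo x y, G.derivative.eval z = 0 := by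
  obtain ⟨p, hp1, hp2⟩ := exists_between hxy
  obtain ⟨u, hu, hu'⟩ := right_pos G hp1 (fun u hu => hpos u ⟨hu.1, hu.2.trans_lt hp2⟩) hx
  obtain ⟨v, hv, hv'⟩ := left_neg G hp2 (fun u hu => hpos u ⟨hp1.trans_le hu.1, hu.2⟩) hy
  have huv : u ≤ v := (hu.2.trans hv.1).le
  obtain ⟨z, hz, hz0⟩ := intermediate_value_Ioo' huv G.derivative.continuousOn
    (show (0 : ℝ) ∈ Set.Ioo (G.derivative.eval v) (G.derivative.eval u) from ⟨hv', hu'⟩)
  exact ⟨z, ⟨hu.1.trans hz.1, hz.2.trans hv.2⟩, hz0⟩

lemma zero_between (G : ℝ[X]) {x y : ℝ} (hxy : x < y) (hne : ∀ u ∈ Set.Ioo x y, G.eval u ≠ 0)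
    (hx : G.eval x = 0 ∨ (G.derivative.eval x = 0 ∧ 0 < G.eval x * G.derivative.derivative.eval x))
    (hy : G.eval y = 0 ∨ (G.derivative.eval y = 0 ∧ 0 < G.eval y * G.derivative.derivative.eval y)) :
    ∃ z ∈ Set.Ioo x y, G.derivative.eval z = 0 := by
  obtain ⟨p, hp1, hp2⟩ := exists_between hxy
  -- constant sign
  have hsign : ∀ (G : ℝ[X]), (∀ u ∈ Set.Ioo x y, G.eval u ≠ 0) → 0 < G.eval p →
      ∀ u ∈ Set.Ioo x y, 0 < G.eval u := by
    intro G hne hGp u hu
    by_contra hcon
    have hu0 : G.eval u < 0 := lt_of_le_of_ne (not_lt.1 hcon) (hne u hu)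
    rcases le_total u p with h | h
    · obtain ⟨w, hw, hw0⟩ := intermediate_value_Ioo h G.continuousOn
        (show (0 : ℝ) ∈ Set.Ioo (G.eval u) (G.eval p) from ⟨hu0, hGp⟩)
      exact hne w ⟨hu.1.trans hw.1, hw.2.trans hp2⟩ hw0
    · obtain ⟨w, hw, hw0⟩ := intermediate_value_Ioo' h G.continuousOn
        (show (0 : ℝ) ∈ Set.Ioo (G.eval u) (G.eval p) from ⟨hu0, hGp⟩)
      exact hne w ⟨hp1.trans hw.1, hw.2.trans hu.2⟩ hw0
  rcases lt_or_gt_of_ne (hne p ⟨hp1, hp2⟩) with hp | hp
  · obtain ⟨z, hz, hz0⟩ := zero_between_pos (-G) hxy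
      (hsign (-G) (fun u hu => by rw [eval_neg]; exact neg_ne_zero.2 (hne u hu))
        (by rw [eval_neg]; linarith))
      (by
        rcases hx with hx | ⟨h1, h2⟩
        · left; rw [eval_neg, hx, neg_zero]
        · right
          simp only [derivative_neg, eval_neg, neg_mul_neg]
          exact ⟨by rw [h1, neg_zero], h2⟩)
      (by
        rcases hy with hy | ⟨h1, h2⟩
        · left; rw [eval_neg, hy, neg_zero]
        · right
          simp only [derivative_neg, eval_neg, neg_mul_neg]
          exact ⟨by rw [h1, neg_zero], h2⟩)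
    refine ⟨z, hz, ?_⟩
    rw [derivative_neg, eval_neg, neg_eq_zero] at hz0
    exact hz0
  · exact zero_between_pos G hxy (hsign G hne hp) hx hy

/-- **Fourier critical points**: each of them gives two additional real zeros of `G'`. -/
theorem crit_card (G : ℝ[X]) (S : Finset ℝ)
    (hS : ∀ c ∈ S, G.derivative.eval c = 0 ∧ 0 < G.eval c * G.derivative.derivative.eval c) :
    Multiset.card G.roots + 2 * S.card ≤ Multiset.card G.derivative.roots + 1 := by
  rcases eq_or_ne (derivative G) 0 with hG' | hG'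
  · have hS0 : S = ∅ := by
      rw [Finset.eq_empty_iff_forall_notMem]
      intro c hc
      have := (hS c hc).2
      rw [hG'] at this
      simp at this
    rw [eq_C_of_derivative_eq_zero hG', hS0]
    simp
  have hG : G ≠ 0 := ne_of_apply_ne derivative (by rwa [derivative_zero])
  have hR : ∀ c, c ∈ G.roots.toFinset ↔ G.eval c = 0 := fun c => by
    rw [Multiset.mem_toFinset, mem_roots hG, IsRoot]
  have hR' : ∀ c, c ∈ G.derivative.roots.toFinset ↔ G.derivative.eval c = 0 := fun c => by
    rw [Multiset.mem_toFinset, mem_roots hG', IsRoot]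
  have hdisj : Disjoint G.roots.toFinset S := by
    rw [Finset.disjoint_left]
    intro c hc hcS
    have h1 := (hS c hcS).2
    rw [(hR c).1 hc, zero_mul] at h1
    exact lt_irrefl _ h1
  have hinter : (G.roots.toFinset ∪ S).card ≤
      (G.derivative.roots.toFinset \ (G.roots.toFinset ∪ S)).card + 1 := by
    refine Finset.card_le_sdiff_of_interleaved fun x hx y hy hxy hxy' => ?_
    have key : ∀ c ∈ G.roots.toFinset ∪ S, G.eval c = 0 ∨
        (G.derivative.eval c = 0 ∧ 0 < G.eval c * G.derivative.derivative.eval c) := by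
      intro c hc
      rcases Finset.mem_union.1 hc with h | h
      · exact Or.inl ((hR c).1 h)
      · exact Or.inr (hS c h)
    obtain ⟨z, hz, hz0⟩ := zero_between G hxy (fun u hu h0 => by
      exact hxy' u (Finset.mem_union_left _ ((hR u).2 h0)) hu) (key x hx) (key y hy)
    exact ⟨z, (hR' z).2 hz0, hz.1, hz.2⟩
  rw [Finset.card_union_of_disjoint hdisj] at hinter
  have h1 : Multiset.card G.roots =
      (∑ c ∈ G.roots.toFinset, (G.rootMultiplicity c - 1)) + G.roots.toFinset.card := by
    calc Multiset.card G.roots = ∑ x ∈ G.roots.toFinset, G.roots.count x :=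
          (Multiset.toFinset_sum_count_eq _).symm
      _ = ∑ x ∈ G.roots.toFinset, (G.roots.count x - 1 + 1) :=
          (Eq.symm <| Finset.sum_congr rfl fun _ hx => tsub_add_cancel_of_le <|
            Nat.succ_le_iff.2 <| Multiset.count_pos.2 <| Multiset.mem_toFinset.1 hx)
      _ = _ := by simp only [Finset.sum_add_distrib, Finset.card_eq_sum_ones, count_roots]
  have h2 : (∑ c ∈ G.roots.toFinset, (G.rootMultiplicity c - 1)) ≤
      ∑ c ∈ G.roots.toFinset, G.derivative.roots.count c := by
    refine Finset.sum_le_sum fun c _ => ?_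
    rw [count_roots]
    exact rootMultiplicity_sub_one_le_derivative_rootMultiplicity _ _
  have h3 : S.card ≤ ∑ c ∈ S, G.derivative.roots.count c := by
    rw [Finset.card_eq_sum_ones]
    refine Finset.sum_le_sum fun c hc => ?_
    rw [Nat.one_le_iff_ne_zero, ← Nat.pos_iff_ne_zero, Multiset.count_pos, ← Multiset.mem_toFinset]
    exact (hR' c).2 (hS c hc).1
  have h4 : (G.derivative.roots.toFinset \ (G.roots.toFinset ∪ S)).card ≤
      ∑ c ∈ G.derivative.roots.toFinset \ (G.roots.toFinset ∪ S), G.derivative.roots.count c := by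
    rw [Finset.card_eq_sum_ones]
    refine Finset.sum_le_sum fun c hc => ?_
    rw [Nat.one_le_iff_ne_zero, ← Nat.pos_iff_ne_zero, Multiset.count_pos, ← Multiset.mem_toFinset]
    exact (Finset.mem_sdiff.1 hc).1
  have h5 : (∑ c ∈ G.roots.toFinset, G.derivative.roots.count c) +
      (∑ c ∈ S, G.derivative.roots.count c) +
      (∑ c ∈ G.derivative.roots.toFinset \ (G.roots.toFinset ∪ S), G.derivative.roots.count c) =
      Multiset.card G.derivative.roots := by
    rw [← Finset.sum_union hdisj, ← Finset.sum_union Finset.disjoint_sdiff,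
      Finset.union_sdiff_self_eq_union, ← Multiset.toFinset_sum_count_eq,
      ← Finset.sum_subset Finset.subset_union_right]
    intro x _ hx₂
    simpa only [Multiset.mem_toFinset, Multiset.count_eq_zero] using hx₂
  omega

end Pool.Agent.X143.HC
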