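import Pool.Agent.X143.HC.Meas

/-!
# Dynamics: the orbit map is onto `ℝ⁴`
-/

set_option autoImplicit false

namespace Pool.Agent.X143.HC

open Module

/-- `x` is a hypercyclic vector for the operator `S`: the orbit `{S^n x : n ≥ 0}` is dense. -/
def IsHypercyclicVector {X : Type*} [AddCommGroup X] [Module ℝ X] [TopologicalSpace X]
    (S : X →L[ℝ] X) (x : X) : Prop :=
  Dense (Set.range fun n : ℕ => (S ^ n) x)

section

variable {X : Type*} [AddCommGroup X] [Module ℝ X] [TopologicalSpace X] 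
  [IsTopologicalAddGroup X] [ContinuousSMul ℝ X]

/-- a semi-invariant homogeneous continuous function excludes dense orbits -/
lemma no_dense (S : X →L[ℝ] X) (s : ℝ) (x : X) (hx : IsHypercyclicVector (s • S) x)
    (G : X → ℝ) (hG : Continuous G) (δ : ℝ) (d : ℕ) (hd : d ≠ 0)
    (h1 : ∀ y, G (S y) = δ * G y) (h2 : ∀ (c : ℝ) y, G (c • y) = c ^ d * G y)
    (y₀ : X) (h3 : G y₀ ≠ 0) : False := by
  obtain ⟨δ', hδ'⟩ : ∃ δ', δ' = s ^ d * δ := ⟨_, rfl⟩
  have horb : ∀ n : ℕ, G (((s • S) ^ n) x) = δ' ^ n * G x := by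
    intro n
    induction n with
    | zero => simp
    | succ n ih =>
      rw [pow_succ', ContinuousLinearMap.mul_apply, ContinuousLinearMap.smul_apply, h2, h1, ih, hδ']
      ring
  by_cases hgx : G x = 0
  · have hall : G = fun _ => 0 := by
      refine Continuous.ext_on hx hG continuous_const ?_
      rintro _ ⟨n, rfl⟩
      simp only
      rw [horb, hgx, mul_zero]
    exact h3 (by rw [hall])
  · obtain ⟨m, hm1, hm2⟩ : ∃ m : ℝ, 1 < m ∧ ∀ n : ℕ, ¬ (1 < δ' ^ n ∧ δ' ^ n < m) := by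
      by_cases hδ : 1 < |δ'|
      · refine ⟨|δ'|, hδ, ?_⟩
        rintro n ⟨ha, hb⟩
        rcases Nat.eq_zero_or_pos n with rfl | hn
        · simp at ha
        · have : |δ'| ≤ |δ'| ^ n := le_self_pow₀ hδ.le hn.ne'
          have hpos : 0 < δ' ^ n := lt_trans one_pos ha
          rw [← abs_pow, abs_of_pos hpos] at this
          exact absurd hb (not_lt.mpr this)
      · refine ⟨2, by norm_num, ?_⟩
        rintro n ⟨ha, hb⟩
        have : |δ'| ^ n ≤ 1 := pow_le_one₀ (abs_nonneg _) (not_lt.mp hδ)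
        rw [← abs_pow] at this
        have := le_abs_self (δ' ^ n)
        linarith
    have hopen : IsOpen {w : X | 1 < G w / G x ∧ G w / G x < m} := by
      have hc : Continuous fun w => G w / G x := hG.div_const _
      exact (isOpen_lt continuous_const hc).inter (isOpen_lt hc continuous_const)
    obtain ⟨c, hc⟩ : ∃ c : ℝ, c ^ d = (1 + m) / 2 :=
      ⟨((1 + m) / 2) ^ ((d : ℝ)⁻¹), Real.rpow_inv_natCast_pow (by linarith) hd⟩
    have hne : {w : X | 1 < G w / G x ∧ G w / G x < m}.Nonempty := by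
      refine ⟨c • x, ?_⟩
      simp only [Set.mem_setOf_eq]
      rw [h2, hc, mul_div_assoc, div_self hgx, mul_one]
      constructor <;> linarith
    obtain ⟨_, hw, ⟨n, rfl⟩⟩ := hx.inter_open_nonempty _ hopen hne
    simp only [Set.mem_setOf_eq] at hw
    rw [horb, mul_div_assoc, div_self hgx, mul_one] at hw
    exact hm2 n hw

/-- the four triangular vectors -/
lemma exists_tri (S : X →L[ℝ] X) (s : ℝ) (x : X) (hx : IsHypercyclicVector (s • S) x)
    (f : X →L[ℝ] ℝ) (hf : ∃ y, f y = 1) :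
    (∃ y, f y = 0 ∧ f (S y) = 1) ∧
    (∃ y, f y = 0 ∧ f (S y) = 0 ∧ f (S (S y)) = 1) ∧
    (∃ y, f y = 0 ∧ f (S y) = 0 ∧ f (S (S y)) = 0 ∧ f (S (S (S y))) = 1) := by
  obtain ⟨g0, hg0⟩ : ∃ g : X →ₗ[ℝ] ℝ, ∀ y, g y = f y := ⟨f.toLinearMap, fun _ => rfl⟩
  obtain ⟨g1, hg1⟩ : ∃ g : X →ₗ[ℝ] ℝ, ∀ y, g y = f (S y) := ⟨(f.comp S).toLinearMap, fun _ => rfl⟩
  obtain ⟨g2, hg2⟩ : ∃ g : X →ₗ[ℝ] ℝ, ∀ y, g y = f (S (S y)) :=
    ⟨(f.comp (S.comp S)).toLinearMap, fun _ => rfl⟩
  obtain ⟨g3, hg3⟩ : ∃ g : X →ₗ[ℝ] ℝ, ∀ y, g y = f (S (S (S y))) :=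
    ⟨(f.comp (S.comp (S.comp S))).toLinearMap, fun _ => rfl⟩
  have hc0 : Continuous fun y => f y := f.continuous
  have hc1 : Continuous fun y => f (S y) := (f.comp S).continuous
  have hc2 : Continuous fun y => f (S (S y)) := (f.comp (S.comp S)).continuous
  have hc3 : Continuous fun y => f (S (S (S y))) := (f.comp (S.comp (S.comp S))).continuous
  have hc4 : Continuous fun y => f (S (S (S (S y)))) := (f.comp (S.comp (S.comp (S.comp S)))).continuous
  have key1 : ∃ y, f y = 0 ∧ f (S y) = 1 := by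
    by_contra hcon
    have hker : ⨅ i : Fin 1, ((![g0] : Fin 1 → (X →ₗ[ℝ] ℝ)) i).ker ≤ g1.ker := by
      intro y hy
      simp only [Submodule.mem_iInf, LinearMap.mem_ker, Fin.forall_fin_one, Matrix.cons_val_zero] at hy
      rw [LinearMap.mem_ker]
      by_contra h
      refine hcon ⟨(g1 y)⁻¹ • y, ?_, ?_⟩
      · rw [map_smul, ← hg0, hy, smul_zero]
      · rw [map_smul, map_smul, ← hg1, smul_eq_mul, inv_mul_cancel₀ h]
    have hmem := mem_span_of_iInf_ker_le_ker hker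
    rw [Submodule.mem_span_range_iff_exists_fun] at hmem
    obtain ⟨β, hβ⟩ := hmem
    have hrel : ∀ y, f (S y) = β 0 * f y := by
      intro y
      have := congrArg (fun g : X →ₗ[ℝ] ℝ => g y) hβ
      simp at this
      rw [← hg1, ← hg0]
      exact this.symm
    obtain ⟨y₀, hy₀⟩ := hf
    exact no_dense S s x hx f hc0 (β 0) 1 one_ne_zero hrel (fun c y => by simp) y₀ (by rw [hy₀]; exact one_ne_zero)
  have key2 : ∃ y, f y = 0 ∧ f (S y) = 0 ∧ f (S (S y)) = 1 := by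
    by_contra hcon
    have hker : ⨅ i : Fin 2, ((![g0, g1] : Fin 2 → (X →ₗ[ℝ] ℝ)) i).ker ≤ g2.ker := by
      intro y hy
      simp only [Submodule.mem_iInf, LinearMap.mem_ker, Fin.forall_fin_two, Matrix.cons_val_zero,
        Matrix.cons_val_one] at hy
      rw [LinearMap.mem_ker]
      by_contra h
      refine hcon ⟨(g2 y)⁻¹ • y, ?_, ?_, ?_⟩
      · rw [map_smul, ← hg0, hy.1, smul_zero]
      · rw [map_smul, map_smul, ← hg1, hy.2, smul_zero]
      · rw [map_smul, map_smul, map_smul, ← hg2, smul_eq_mul, inv_mul_cancel₀ h]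
    have hmem := mem_span_of_iInf_ker_le_ker hker
    rw [Submodule.mem_span_range_iff_exists_fun] at hmem
    obtain ⟨β, hβ⟩ := hmem
    have hrel : ∀ y, f (S (S y)) = β 0 * f y + β 1 * f (S y) := by
      intro y
      have := congrArg (fun g : X →ₗ[ℝ] ℝ => g y) hβ
      simp [Fin.sum_univ_two] at this
      rw [← hg2, ← hg0, ← hg1]
      exact this.symm
    obtain ⟨y₀, hy₀, hy₁⟩ := key1
    refine no_dense S s x hx (fun y => f y * f (S (S y)) - f (S y) ^ 2)
      ((hc0.mul hc2).sub (hc1.pow 2)) (-β 0) 2 two_ne_zero ?_ ?_ y₀ ?_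
    · intro y
      rw [hrel (S y), hrel y]
      ring
    · intro c y
      simp only [map_smul, smul_eq_mul]
      ring
    · rw [hy₀, hy₁]
      norm_num
  have key3 : ∃ y, f y = 0 ∧ f (S y) = 0 ∧ f (S (S y)) = 0 ∧ f (S (S (S y))) = 1 := by
    by_contra hcon
    have hker : ⨅ i : Fin 3, ((![g0, g1, g2] : Fin 3 → (X →ₗ[ℝ] ℝ)) i).ker ≤ g3.ker := by
      intro y hy
      simp only [Submodule.mem_iInf, LinearMap.mem_ker] at hy
      have e0 : g0 y = 0 := hy 0
      have e1 : g1 y = 0 := hy 1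
      have e2 : g2 y = 0 := hy 2
      rw [LinearMap.mem_ker]
      by_contra h
      refine hcon ⟨(g3 y)⁻¹ • y, ?_, ?_, ?_, ?_⟩
      · rw [map_smul, ← hg0, e0, smul_zero]
      · rw [map_smul, map_smul, ← hg1, e1, smul_zero]
      · rw [map_smul, map_smul, map_smul, ← hg2, e2, smul_zero]
      · rw [map_smul, map_smul, map_smul, map_smul, ← hg3, smul_eq_mul, inv_mul_cancel₀ h]
    have hmem := mem_span_of_iInf_ker_le_ker hker
    rw [Submodule.mem_span_range_iff_exists_fun] at hmem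
    obtain ⟨β, hβ⟩ := hmem
    have hrel : ∀ y, f (S (S (S y))) = β 0 * f y + β 1 * f (S y) + β 2 * f (S (S y)) := by
      intro y
      have := congrArg (fun g : X →ₗ[ℝ] ℝ => g y) hβ
      simp [Fin.sum_univ_three] at this
      rw [← hg3, ← hg0, ← hg1, ← hg2]
      exact this.symm
    obtain ⟨y₀, hy₀, hy₁, hy₂⟩ := key2
    refine no_dense S s x hx (fun y => 
        f y * f (S (S y)) * f (S (S (S (S y)))) + 2 * f (S y) * f (S (S y)) * f (S (S (S y)))
        - f (S (S y)) ^ 3 - f y * f (S (S (S y))) ^ 2 - f (S y) ^ 2 * f (S (S (S (S y)))))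
      ?_ (β 0) 3 three_ne_zero ?_ ?_ y₀ ?_
    · fun_prop
    · intro y
      rw [hrel (S (S y)), hrel (S y), hrel y]
      ring
    · intro c y
      simp only [map_smul, smul_eq_mul]
      ring
    · rw [hy₀, hy₁, hy₂]
      norm_num
  exact ⟨key1, key2, key3⟩

lemma exists_target (S : X →L[ℝ] X) (s : ℝ) (x : X) (hx : IsHypercyclicVector (s • S) x)
    (f : X →L[ℝ] ℝ) (hf : f ≠ 0) :
    ∃ y, f y = 1 ∧ f (S y) = 0 ∧ f (S (S y)) = 1 ∧ f (S (S (S y))) = 0 := by
  obtain ⟨y0, h0⟩ : ∃ y, f y = 1 := by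
    obtain ⟨y, hy⟩ : ∃ y, f y ≠ 0 := by
      by_contra hcon
      push Not at hcon
      exact hf (by ext y; simpa using hcon y)
    exact ⟨(f y)⁻¹ • y, by rw [map_smul, smul_eq_mul, inv_mul_cancel₀ hy]⟩
  obtain ⟨⟨y1, a0, a1⟩, ⟨y2, b0, b1, b2⟩, ⟨y3, c0, c1, c2, c3⟩⟩ := exists_tri S s x hx f ⟨y0, h0⟩
  obtain ⟨z1, hz10, hz11⟩ : ∃ z, f z = 1 ∧ f (S z) = 0 := by
    refine ⟨y0 - f (S y0) • y1, ?_, ?_⟩
    · simp only [map_sub, map_smul, smul_eq_mul]; rw [h0, a0]; ring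
    · simp only [map_sub, map_smul, smul_eq_mul]; rw [a1]; ring
  obtain ⟨z2, hz20, hz21, hz22⟩ : ∃ z, f z = 1 ∧ f (S z) = 0 ∧ f (S (S z)) = 1 := by
    refine ⟨z1 + (1 - f (S (S z1))) • y2, ?_, ?_, ?_⟩
    · simp only [map_add, map_smul, smul_eq_mul]; rw [hz10, b0]; ring
    · simp only [map_add, map_smul, smul_eq_mul]; rw [hz11, b1]; ring
    · simp only [map_add, map_smul, smul_eq_mul]; rw [b2]; ring
  refine ⟨z2 - f (S (S (S z2))) • y3, ?_, ?_, ?_, ?_⟩
  · simp only [map_sub, map_smul, smul_eq_mul]; rw [hz20, c0]; ring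
  · simp only [map_sub, map_smul, smul_eq_mul]; rw [hz21, c1]; ring
  · simp only [map_sub, map_smul, smul_eq_mul]; rw [hz22, c2]; ring
  · simp only [map_sub, map_smul, smul_eq_mul]; rw [c3]; ring

end

end Pool.Agent.X143.HC
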