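import Pool.Agent.X143.HC.Dyn

/-!
# The null set of parameters
-/

set_option autoImplicit false

namespace Pool.Agent.X143.HC

open Module MeasureTheory

section

variable {X : Type*} [AddCommGroup X] [Module ℝ X] [TopologicalSpace X]
  [IsTopologicalAddGroup X] [ContinuousSMul ℝ X]

lemma eval_P_orbit (T : X →L[ℝ] X) (f : X →L[ℝ] ℝ) (x : X) (t : ℝ) (n : ℕ) :
    f (((T + t • (1 : X →L[ℝ] X)) ^ n) x) = (P (fun k => f ((T ^ k) x)) n).eval t := by
  rw [P_eval]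
  have hcomm : Commute T (t • (1 : X →L[ℝ] X)) := (Commute.one_right T).smul_right t
  rw [hcomm.add_pow, ContinuousLinearMap.sum_apply, map_sum]
  refine Finset.sum_congr rfl fun k _ => ?_
  have h1 : (T ^ k * (t • (1 : X →L[ℝ] X)) ^ (n - k) * ((n.choose k : ℕ) : X →L[ℝ] X))
      = ((n.choose k : ℝ) * t ^ (n - k)) • T ^ k := by
    rw [smul_pow, one_pow, mul_smul_comm, mul_one, ← nsmul_eq_mul', mul_smul, ← Nat.cast_smul_eq_nsmul ℝ]
  rw [h1, ContinuousLinearMap.smul_apply, map_smul, smul_eq_mul]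
  ring

lemma mem_GG [T1Space X] [Nontrivial X] (T : X →L[ℝ] X) (f : X →L[ℝ] ℝ) (hf : f ≠ 0) (x : X)
    (k : ℝ) (s t : ℝ) (hs : 0 < s) (hsk : s ≤ k) (ht : 0 ≤ t) (ht1 : t < 1)
    (hx : IsHypercyclicVector (s • (T + t • (1 : X →L[ℝ] X))) x) (N : ℕ) :
    ∃ n, N ≤ n ∧ (s, t) ∈ GG (fun k => f ((T ^ k) x)) k n := by
  obtain ⟨S, hS⟩ : ∃ S, S = T + t • (1 : X →L[ℝ] X) := ⟨_, rfl⟩
  rw [← hS] at hx
  obtain ⟨y, hy0, hy1, hy2, hy3⟩ := exists_target S s x hx f hf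
  have hc0 : Continuous fun y => f y := f.continuous
  have hc1 : Continuous fun y => f (S y) := (f.comp S).continuous
  have hc2 : Continuous fun y => f (S (S y)) := (f.comp (S.comp S)).continuous
  have hc3 : Continuous fun y => f (S (S (S y))) := (f.comp (S.comp (S.comp S))).continuous
  haveI : ∀ x : X, (nhdsWithin x {x}ᶜ).NeBot := fun x => punctured_nhds_neBot ℝ X x
  have hdense : Dense ((Set.range fun n : ℕ => ((s • S) ^ n) x)
      \ ((fun n : ℕ => ((s • S) ^ n) x) '' (Finset.range N : Set ℕ))) :=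
    Dense.sdiff_finite hx ((Finset.finite_toSet _).image _)
  have hopen : IsOpen {w : X | (|f w - 1| < 1 / 10 ∧ |f (S w)| < 1 / 10) ∧
      (|f (S (S w)) - 1| < 1 / 10 ∧ |f (S (S (S w)))| < 1 / 10)} := by
    refine IsOpen.inter (IsOpen.inter ?_ ?_) (IsOpen.inter ?_ ?_)
    · exact isOpen_lt ((hc0.sub continuous_const).abs) continuous_const
    · exact isOpen_lt hc1.abs continuous_const
    · exact isOpen_lt ((hc2.sub continuous_const).abs) continuous_const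
    · exact isOpen_lt hc3.abs continuous_const
  obtain ⟨w, hw, ⟨n, rfl⟩, hn⟩ := hdense.inter_open_nonempty _ hopen
    ⟨y, by
      simp only [Set.mem_ofPred_eq]
      rw [hy0, hy1, hy2, hy3]
      norm_num⟩
  refine ⟨n, ?_, ?_⟩
  · by_contra hlt
    push Not at hlt
    exact hn ⟨n, by simpa using hlt, rfl⟩
  · simp only [Set.mem_ofPred_eq] at hw
    have e0 : ((s • S) ^ n) x = s ^ n • (S ^ n) x := by
      rw [smul_pow, ContinuousLinearMap.smul_apply]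
    have e1 : ∀ m : ℕ, S ((S ^ m) x) = (S ^ (m + 1)) x := by
      intro m
      rw [pow_succ', mul_apply_eq_comp]
    rw [e0] at hw
    simp only [map_smul, smul_eq_mul] at hw
    rw [e1, e1, e1] at hw
    rw [hS, eval_P_orbit, eval_P_orbit, eval_P_orbit, eval_P_orbit] at hw
    exact ⟨⟨⟨hs, hsk⟩, ⟨ht, ht1⟩⟩, hw⟩

lemma null_basic [T1Space X] [Nontrivial X] [LocallyConvexSpace ℝ X] (T : X →L[ℝ] X) (x : X)
    (k : ℝ) (hk : 0 < k) :
    volume {q : ℝ × ℝ | ((0 < q.1 ∧ q.1 ≤ k) ∧ (0 ≤ q.2 ∧ q.2 < 1)) ∧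
      IsHypercyclicVector (q.1 • (T + q.2 • (1 : X →L[ℝ] X))) x} = 0 := by
  obtain ⟨y, hy⟩ := exists_ne (0 : X)
  obtain ⟨f, hf⟩ := geometric_hahn_banach_point_point hy
  have hf0 : f ≠ 0 := by
    rintro rfl
    simp at hf
  refine measure_mono_null ?_ (limsup_null (fun k => f ((T ^ k) x)) hk)
  rintro ⟨s, t⟩ ⟨⟨⟨h1, h2⟩, ⟨h3, h4⟩⟩, h5⟩ N
  exact mem_GG T f hf0 x k s t h1 h2 h3 h4 h5 N

lemma null_shift [T1Space X] [Nontrivial X] [LocallyConvexSpace ℝ X] (T : X →L[ℝ] X) (x : X)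
    (k : ℝ) (hk : 0 < k) (m : ℤ) :
    volume {q : ℝ × ℝ | ((0 < q.1 ∧ q.1 ≤ k) ∧ (m ≤ q.2 ∧ q.2 < m + 1)) ∧
      IsHypercyclicVector (q.1 • (T + q.2 • (1 : X →L[ℝ] X))) x} = 0 := by
  have h := null_basic (T + (m : ℝ) • (1 : X →L[ℝ] X)) x k hk
  rw [← measure_preimage_add_right volume ((0 : ℝ), -(m : ℝ))] at h
  refine measure_mono_null ?_ h
  rintro ⟨s, t⟩ ⟨⟨⟨h1, h2⟩, ⟨h3, h4⟩⟩, h5⟩
  simp only at h1 h2 h3 h4 h5
  simp only [Set.mem_preimage, Set.mem_ofPred_eq, Prod.mk_add_mk, add_zero]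
  refine ⟨⟨⟨h1, h2⟩, ⟨by linarith, by linarith⟩⟩, ?_⟩
  have e : T + (m : ℝ) • (1 : X →L[ℝ] X) + (t + -(m : ℝ)) • (1 : X →L[ℝ] X)
      = T + t • (1 : X →L[ℝ] X) := by
    rw [add_assoc, ← add_smul]
    congr 2
    ring
  rw [e]
  exact h5

lemma null_all [T1Space X] [Nontrivial X] [LocallyConvexSpace ℝ X] (T : X →L[ℝ] X) (x : X) :
    volume {q : ℝ × ℝ | 0 < q.1 ∧
      IsHypercyclicVector (q.1 • (T + q.2 • (1 : X →L[ℝ] X))) x} = 0 := by
  have h : volume (⋃ k : ℕ, ⋃ m : ℤ, {q : ℝ × ℝ | ((0 < q.1 ∧ q.1 ≤ ((k : ℝ) + 1)) ∧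
      (m ≤ q.2 ∧ q.2 < m + 1)) ∧
      IsHypercyclicVector (q.1 • (T + q.2 • (1 : X →L[ℝ] X))) x}) = 0 := by
    rw [measure_iUnion_null_iff]
    intro k
    rw [measure_iUnion_null_iff]
    intro m
    exact null_shift T x _ (by positivity) m
  refine measure_mono_null ?_ h
  rintro ⟨s, t⟩ ⟨h1, h2⟩
  simp only at h1 h2
  simp only [Set.mem_iUnion, Set.mem_ofPred_eq]
  obtain ⟨k, hk⟩ := exists_nat_ge s
  exact ⟨k, ⌊t⌋, ⟨⟨h1, by linarith⟩, ⟨Int.floor_le t, Int.lt_floor_add_one t⟩⟩, h2⟩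

/-- in the parameters `(a, b)` of the family `aT + bI` -/
lemma null_affine [T1Space X] [Nontrivial X] [LocallyConvexSpace ℝ X] (T : X →L[ℝ] X) (x : X) :
    volume {q : ℝ × ℝ | 0 < q.1 ∧
      IsHypercyclicVector (q.1 • T + q.2 • (1 : X →L[ℝ] X)) x} = 0 := by
  have h := null_all T x
  obtain ⟨E, hE⟩ : ∃ E, E = toMeasurable volume {q : ℝ × ℝ | 0 < q.1 ∧
      IsHypercyclicVector (q.1 • (T + q.2 • (1 : X →L[ℝ] X))) x} := ⟨_, rfl⟩
  have hEm : MeasurableSet E := by rw [hE]; exact measurableSet_toMeasurable _ _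
  have hE0 : (volume.prod volume : Measure (ℝ × ℝ)) E = 0 := by
    rw [← Measure.volume_eq_prod, hE, measure_toMeasurable, h]
  have hsub : {q : ℝ × ℝ | 0 < q.1 ∧
      IsHypercyclicVector (q.1 • (T + q.2 • (1 : X →L[ℝ] X))) x} ⊆ E := by
    rw [hE]; exact subset_toMeasurable _ _
  have hsec := (Measure.measure_prod_null hEm).mp hE0
  obtain ⟨E', hE'⟩ : ∃ E' : Set (ℝ × ℝ), E' = {q | 0 < q.1} ∩ (fun q : ℝ × ℝ => (q.1, q.2 / q.1)) ⁻¹' E :=
    ⟨_, rfl⟩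
  have hE'm : MeasurableSet E' := by
    rw [hE']
    refine (measurableSet_lt measurable_const measurable_fst).inter ?_
    exact (measurable_fst.prodMk (measurable_snd.div measurable_fst)) hEm
  have hE'0 : volume E' = 0 := by
    rw [Measure.volume_eq_prod, Measure.measure_prod_null hE'm]
    filter_upwards [hsec] with a ha
    by_cases hpos : 0 < a
    · have hpre : Prod.mk a ⁻¹' E' = (fun b : ℝ => a⁻¹ * b) ⁻¹' (Prod.mk a ⁻¹' E) := by
        rw [hE']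
        ext b
        simp only [Set.mem_preimage, Set.mem_inter_iff, Set.mem_ofPred_eq]
        rw [div_eq_inv_mul]
        exact ⟨fun h => h.2, fun h => ⟨hpos, h⟩⟩
      rw [hpre, Real.volume_preimage_mul_left (inv_ne_zero hpos.ne'), ha]
      simp
    · have hpre : Prod.mk a ⁻¹' E' = ∅ := by
        rw [hE']
        ext b
        simp only [Set.mem_preimage, Set.mem_inter_iff, Set.mem_ofPred_eq, Set.mem_empty_iff_false, iff_false]
        exact fun h => hpos h.1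
      rw [hpre]
      simp
  refine measure_mono_null ?_ hE'0
  rintro ⟨a, b⟩ ⟨h1, h2⟩
  simp only at h1 h2
  rw [hE']
  refine ⟨h1, hsub ⟨h1, ?_⟩⟩
  simp only
  have e : a • (T + (b / a) • (1 : X →L[ℝ] X)) = a • T + b • (1 : X →L[ℝ] X) := by
    rw [smul_add, smul_smul, mul_div_cancel₀ _ h1.ne']
  rw [e]
  exact h2

end

end Pool.Agent.X143.HC
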