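import Pool.Agent.X143.HC.Appell

/-!
# Good parameters
-/

set_option autoImplicit false

namespace Pool.Agent.X143.HC

open Polynomial

/-- good parameters, with a margin -/
def SG (c : ℕ → ℝ) (β : ℝ) (n : ℕ) (t : ℝ) : Prop :=
  β ≤ (P c (n + 2)).eval t ∧ |(P c (n + 1)).eval t| ≤ 1 / 9 * (P c (n + 2)).eval t ∧
  9 / 11 * (P c (n + 2)).eval t ≤ (P c n).eval t ∧
  |(P c (n + 3)).eval t| ≤ 1 / 9 * (P c (n + 2)).eval t

/-- good parameters -/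
def RG (c : ℕ → ℝ) (n : ℕ) (t : ℝ) : Prop :=
  0 < (P c (n + 2)).eval t ∧ |(P c (n + 1)).eval t| ≤ 1 / 8 * (P c (n + 2)).eval t ∧
  8 / 11 * (P c (n + 2)).eval t ≤ (P c n).eval t ∧
  |(P c (n + 3)).eval t| ≤ 1 / 8 * (P c (n + 2)).eval t

/-- the logarithmic derivative of `P_{n+2}` -/
noncomputable def nu (c : ℕ → ℝ) (n : ℕ) (t : ℝ) : ℝ :=
  ((n : ℝ) + 2) * (P c (n + 1)).eval t / (P c (n + 2)).eval t

lemma nu_le {c : ℕ → ℝ} {n : ℕ} {t : ℝ} (h : RG c n t) : |nu c n t| ≤ ((n : ℝ) + 2) / 8 := by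
  obtain ⟨h0, h1, -, -⟩ := h
  unfold nu
  rw [abs_div, abs_mul, abs_of_pos h0, abs_of_pos (show (0 : ℝ) < (n : ℝ) + 2 by positivity),
    div_le_iff₀ h0]
  have : ((n : ℝ) + 2) * |(P c (n + 1)).eval t| ≤ ((n : ℝ) + 2) * (1 / 8 * (P c (n + 2)).eval t) :=
    mul_le_mul_of_nonneg_left h1 (by positivity)
  linarith

lemma crit_of_good {c : ℕ → ℝ} {n : ℕ} {t : ℝ} (h : RG c n t) : IsCrit c (nu c n t) n t := by
  have hnu := nu_le h
  obtain ⟨h0, h1, h2, h3⟩ := h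
  obtain ⟨p0, hp0⟩ : ∃ p, p = (P c n).eval t := ⟨_, rfl⟩
  obtain ⟨p1, hp1⟩ : ∃ p, p = (P c (n + 1)).eval t := ⟨_, rfl⟩
  obtain ⟨p2, hp2⟩ : ∃ p, p = (P c (n + 2)).eval t := ⟨_, rfl⟩
  obtain ⟨p3, hp3⟩ : ∃ p, p = (P c (n + 3)).eval t := ⟨_, rfl⟩
  have hn : (0 : ℝ) < (n : ℝ) + 2 := by positivity
  have hnueq : nu c n t = ((n : ℝ) + 2) * p1 / p2 := by rw [hp1, hp2]; rfl
  rw [← hp0, ← hp2] at h2
  rw [← hp1, ← hp2] at h1
  rw [← hp2] at h0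
  rw [← hp3, ← hp2] at h3
  obtain ⟨ν, hν⟩ : ∃ ν, ν = nu c n t := ⟨_, rfl⟩
  rw [← hν] at hnu hnueq ⊢
  refine ⟨?_, ?_⟩
  · unfold F
    rw [eval_sub, eval_mul, eval_C, show n + 1 + 1 = n + 2 from rfl, ← hp1, ← hp2, hnueq]
    push_cast
    have h5 : (n : ℝ) + 1 + 1 ≠ 0 := by positivity
    field_simp
    ring
  · have a1 : (F c ν (n + 2)).eval t = p2 - ν / ((n : ℝ) + 3) * p3 := by
      unfold F
      rw [eval_sub, eval_mul, eval_C, show n + 2 + 1 = n + 3 from rfl, ← hp2, ← hp3]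
      push_cast
      rw [show (n : ℝ) + 2 + 1 = n + 3 by ring]
    have a2 : (F c ν n).eval t = p0 - ν / ((n : ℝ) + 1) * p1 := by
      unfold F
      rw [eval_sub, eval_mul, eval_C, ← hp0, ← hp1]
    rw [a1, a2]
    have b1 : |ν / ((n : ℝ) + 3) * p3| ≤ 1 / 64 * p2 := by
      rw [abs_mul, abs_div, abs_of_pos (show (0 : ℝ) < (n : ℝ) + 3 by positivity)]
      have c1 : |ν| / ((n : ℝ) + 3) ≤ 1 / 8 := by
        rw [div_le_iff₀ (by positivity)]; linarith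
      calc |ν| / ((n : ℝ) + 3) * |p3| ≤ 1 / 8 * (1 / 8 * p2) :=
            mul_le_mul c1 h3 (abs_nonneg _) (by norm_num)
        _ = _ := by ring
    have b2 : |ν / ((n : ℝ) + 1) * p1| ≤ 1 / 32 * p2 := by
      rw [abs_mul, abs_div, abs_of_pos (show (0 : ℝ) < (n : ℝ) + 1 by positivity)]
      have c1 : |ν| / ((n : ℝ) + 1) ≤ 1 / 4 := by
        rw [div_le_iff₀ (by positivity)]
        have : (0 : ℝ) ≤ n := Nat.cast_nonneg n
        linarith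
      calc |ν| / ((n : ℝ) + 1) * |p1| ≤ 1 / 4 * (1 / 8 * p2) :=
            mul_le_mul c1 h1 (abs_nonneg _) (by norm_num)
        _ = _ := by ring
    have d1 := (abs_le.1 b1).2
    have d2 := (abs_le.1 b2).2
    apply mul_pos <;> linarith

lemma nu_hasDerivAt {c : ℕ → ℝ} {n : ℕ} {t : ℝ} (h : RG c n t) :
    ∃ d, HasDerivAt (nu c n) d t ∧ (n : ℝ) ^ 2 / 2 ≤ d := by
  obtain ⟨h0, h1, h2, h3⟩ := h
  obtain ⟨p0, hp0⟩ : ∃ p, p = (P c n).eval t := ⟨_, rfl⟩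
  obtain ⟨p1, hp1⟩ : ∃ p, p = (P c (n + 1)).eval t := ⟨_, rfl⟩
  obtain ⟨p2, hp2⟩ : ∃ p, p = (P c (n + 2)).eval t := ⟨_, rfl⟩
  have e1 : HasDerivAt (fun t => (P c (n + 1)).eval t) (((n : ℝ) + 1) * p0) t := by
    have := (P c (n + 1)).hasDerivAt t
    rwa [P_derivative, eval_mul, eval_C, ← hp0] at this
  have e2 : HasDerivAt (fun t => (P c (n + 2)).eval t) (((n : ℝ) + 2) * p1) t := by
    have := (P c (n + 2)).hasDerivAt t
    rw [show n + 2 = n + 1 + 1 from rfl, P_derivative, eval_mul, eval_C, ← hp1] at this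
    push_cast at this
    rwa [show (n : ℝ) + 1 + 1 = n + 2 by ring] at this
  have e3 : HasDerivAt (nu c n) ((((n : ℝ) + 2) * (((n : ℝ) + 1) * p0) * p2 -
      ((n : ℝ) + 2) * p1 * (((n : ℝ) + 2) * p1)) / p2 ^ 2) t := by
    have := (e1.const_mul ((n : ℝ) + 2)).div e2 (by positivity)
    rw [← hp1, ← hp2] at this
    exact this
  refine ⟨_, e3, ?_⟩
  rw [← hp0, ← hp2] at h2
  rw [← hp1, ← hp2] at h1
  rw [← hp2] at h0
  have hn : (0 : ℝ) ≤ n := Nat.cast_nonneg n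
  rw [le_div_iff₀ (by positivity)]
  have f1 : p1 ^ 2 ≤ 1 / 64 * p2 ^ 2 := by
    have := abs_le.1 h1
    nlinarith
  have f2 : 8 / 11 * p2 ^ 2 ≤ p0 * p2 := by nlinarith
  have f3 : 0 < p2 ^ 2 := by positivity
  nlinarith [mul_le_mul_of_nonneg_left f2 (show (0 : ℝ) ≤ ((n : ℝ) + 2) * ((n : ℝ) + 1) by positivity),
    mul_le_mul_of_nonneg_left f1 (show (0 : ℝ) ≤ ((n : ℝ) + 2) ^ 2 by positivity)]

/-- a compactness argument: near `SG` parameters all parameters are `RG` -/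
lemma exists_delta (c : ℕ → ℝ) {β : ℝ} (hβ : 0 < β) (n : ℕ) : ∃ δ > 0, ∀ t ∈ Set.Icc (0 : ℝ) 1,
    SG c β n t → ∀ u ∈ Set.Icc (0 : ℝ) 1, |u - t| ≤ δ → RG c n u := by
  have huc : ∀ m : ℕ, ∃ δ > 0, ∀ t ∈ Set.Icc (0 : ℝ) 1, ∀ u ∈ Set.Icc (0 : ℝ) 1, |u - t| ≤ δ →
      |(P c m).eval u - (P c m).eval t| ≤ β / 200 := by
    intro m
    have h1 : UniformContinuousOn (fun t => (P c m).eval t) (Set.Icc (0 : ℝ) 1) :=
      isCompact_Icc.uniformContinuousOn_of_continuous (P c m).continuousOn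
    rw [Metric.uniformContinuousOn_iff_le] at h1
    obtain ⟨δ, hδ, h⟩ := h1 (β / 200) (by positivity)
    refine ⟨δ, hδ, fun t ht u hu htu => ?_⟩
    have := h u hu t ht (by rw [Real.dist_eq]; exact htu)
    rwa [Real.dist_eq] at this
  choose δ hδ h using huc
  refine ⟨min (min (δ n) (δ (n + 1))) (min (δ (n + 2)) (δ (n + 3))),
    lt_min (lt_min (hδ _) (hδ _)) (lt_min (hδ _) (hδ _)), fun t ht hsg u hu htu => ?_⟩
  have k0 := abs_le.1 (h n t ht u hu (htu.trans ((min_le_left _ _).trans (min_le_left _ _))))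
  have k1 := abs_le.1 (h (n + 1) t ht u hu (htu.trans ((min_le_left _ _).trans (min_le_right _ _))))
  have k2 := abs_le.1 (h (n + 2) t ht u hu (htu.trans ((min_le_right _ _).trans (min_le_left _ _))))
  have k3 := abs_le.1 (h (n + 3) t ht u hu (htu.trans ((min_le_right _ _).trans (min_le_right _ _))))
  obtain ⟨h0, h1, h2, h3⟩ := hsg
  have h1' := abs_le.1 h1
  have h3' := abs_le.1 h3
  refine ⟨by linarith, abs_le.2 ⟨by linarith, by linarith⟩, by linarith,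
    abs_le.2 ⟨by linarith, by linarith⟩⟩

end Pool.Agent.X143.HC
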