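import Pool.Agent.X143.HC.Count

/-!
# The measure estimate
-/

set_option autoImplicit false

namespace Pool.Agent.X143.HC

open Polynomial MeasureTheory

/-- the parameters `(s, t)` for which the `n`-th orbit point is near the target -/
def GG (c : ℕ → ℝ) (k : ℝ) (n : ℕ) : Set (ℝ × ℝ) :=
  {q | ((0 < q.1 ∧ q.1 ≤ k) ∧ (0 ≤ q.2 ∧ q.2 < 1)) ∧
    (|q.1 ^ n * (P c n).eval q.2 - 1| < 1 / 10 ∧ |q.1 ^ n * (P c (n + 1)).eval q.2| < 1 / 10) ∧
    (|q.1 ^ n * (P c (n + 2)).eval q.2 - 1| < 1 / 10 ∧ |q.1 ^ n * (P c (n + 3)).eval q.2| < 1 / 10)}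

lemma measurable_eval (c : ℕ → ℝ) (n m : ℕ) :
    Measurable fun q : ℝ × ℝ => q.1 ^ n * (P c m).eval q.2 :=
  ((continuous_fst.pow n).mul ((P c m).continuous.comp continuous_snd)).measurable

lemma measurable_GG (c : ℕ → ℝ) (k : ℝ) (n : ℕ) : MeasurableSet (GG c k n) := by
  unfold GG
  refine MeasurableSet.inter (MeasurableSet.inter (MeasurableSet.inter ?_ ?_)
    (MeasurableSet.inter ?_ ?_)) (MeasurableSet.inter (MeasurableSet.inter ?_ ?_)
    (MeasurableSet.inter ?_ ?_))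
  · exact measurableSet_lt measurable_const measurable_fst
  · exact measurableSet_le measurable_fst measurable_const
  · exact measurableSet_le measurable_const measurable_snd
  · exact measurableSet_lt measurable_snd measurable_const
  · exact measurableSet_lt (((measurable_eval c n n).sub measurable_const).abs) measurable_const
  · exact measurableSet_lt ((measurable_eval c n (n + 1)).abs) measurable_const
  · exact measurableSet_lt (((measurable_eval c n (n + 2)).sub measurable_const).abs) measurable_const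
  · exact measurableSet_lt ((measurable_eval c n (n + 3)).abs) measurable_const

lemma SG_of_GG {c : ℕ → ℝ} {k : ℝ} {n : ℕ} {q : ℝ × ℝ} (hq : q ∈ GG c k n) :
    SG c (9 / 10 / k ^ n) n q.2 := by
  obtain ⟨⟨⟨h0, h1⟩, -⟩, ⟨a0, a1⟩, a2, a3⟩ := hq
  obtain ⟨s, t⟩ := q
  simp only at *
  have hk : 0 < k := h0.trans_le h1
  obtain ⟨σ, hσ⟩ : ∃ σ, σ = s ^ n := ⟨_, rfl⟩
  have hσ0 : 0 < σ := by rw [hσ]; positivity
  have hσk : σ ≤ k ^ n := by rw [hσ]; exact pow_le_pow_left₀ h0.le h1 n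
  rw [← hσ] at a0 a1 a2 a3
  obtain ⟨p0, hp0⟩ : ∃ p, p = (P c n).eval t := ⟨_, rfl⟩
  obtain ⟨p1, hp1⟩ : ∃ p, p = (P c (n + 1)).eval t := ⟨_, rfl⟩
  obtain ⟨p2, hp2⟩ : ∃ p, p = (P c (n + 2)).eval t := ⟨_, rfl⟩
  obtain ⟨p3, hp3⟩ : ∃ p, p = (P c (n + 3)).eval t := ⟨_, rfl⟩
  unfold SG
  rw [← hp0, ← hp1, ← hp2, ← hp3]
  rw [← hp0] at a0
  rw [← hp1] at a1
  rw [← hp2] at a2
  rw [← hp3] at a3
  rw [abs_lt] at a0 a2
  rw [abs_mul, abs_of_pos hσ0] at a1 a3
  have hp2pos : 0 < p2 := by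
    by_contra hcon
    push Not at hcon
    have := mul_nonpos_of_nonneg_of_nonpos hσ0.le hcon
    linarith [a2.1]
  refine ⟨?_, ?_, ?_, ?_⟩
  · rw [div_le_iff₀ (by positivity)]
    have : σ * p2 ≤ k ^ n * p2 := mul_le_mul_of_nonneg_right hσk hp2pos.le
    linarith [a2.1]
  · have : σ * |p1| ≤ σ * (1 / 9 * p2) := by linarith [a2.1]
    exact le_of_mul_le_mul_left this hσ0
  · have : σ * (9 / 11 * p2) ≤ σ * p0 := by linarith [a2.2, a0.1]
    exact le_of_mul_le_mul_left this hσ0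
  · have : σ * |p3| ≤ σ * (1 / 9 * p2) := by linarith [a2.1]
    exact le_of_mul_le_mul_left this hσ0

/-- the length in the direction of `s` -/
lemma section_le {k p : ℝ} (hk : 0 < k) {n : ℕ} (hn : 1 ≤ n) :
    volume {s : ℝ | (0 < s ∧ s ≤ k) ∧ |s ^ n * p - 1| < 1 / 10} ≤
      ENNReal.ofReal (k * (2 / 9) / n) := by
  refine (Real.volume_le_diam _).trans (Metric.ediam_le fun x hx y hy => ?_)
  have hn0 : (0 : ℝ) < n := by exact_mod_cast hn
  -- symmetric estimate
  have key : ∀ x y : ℝ, ((0 < x ∧ x ≤ k) ∧ |x ^ n * p - 1| < 1 / 10) →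
      ((0 < y ∧ y ≤ k) ∧ |y ^ n * p - 1| < 1 / 10) → y - x ≤ k * (2 / 9) / n := by
    rintro x y ⟨⟨hx0, hxk⟩, hx⟩ ⟨⟨hy0, hyk⟩, hy⟩
    rw [abs_lt] at hx hy
    have h1 : y ^ n < (11 / 9) * x ^ n := by
      have hxn : 0 < x ^ n := by positivity
      have hp : 0 < p := by
        by_contra hcon
        push Not at hcon
        have := mul_nonpos_of_nonneg_of_nonpos hxn.le hcon
        linarith [hx.1]
      have h2 : y ^ n * p < (11 / 9) * x ^ n * p := by linarith [hx.1, hy.2]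
      exact lt_of_mul_lt_mul_right h2 hp.le
    have h2 : (11 / 9 : ℝ) ≤ (1 + (2 / 9) / n) ^ n := by
      have := one_add_mul_le_pow (show (-2 : ℝ) ≤ (2 / 9) / n by
        have : (0 : ℝ) ≤ (2 / 9) / n := by positivity
        linarith) n
      have e : 1 + (n : ℝ) * ((2 / 9) / n) = 11 / 9 := by field_simp; norm_num
      linarith
    have h3 : y ^ n < ((1 + (2 / 9) / n) * x) ^ n := by
      rw [mul_pow]
      exact h1.trans_le (mul_le_mul_of_nonneg_right h2 (by positivity))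
    have h4 : y < (1 + (2 / 9) / n) * x := lt_of_pow_lt_pow_left₀ n (by positivity) h3
    have h5 : (2 / 9) / (n : ℝ) * x ≤ (2 / 9) / n * k :=
      mul_le_mul_of_nonneg_left hxk (by positivity)
    calc y - x ≤ (2 / 9) / n * x := by linarith
      _ ≤ (2 / 9) / n * k := h5
      _ = _ := by ring
  rw [edist_dist, Real.dist_eq]
  apply ENNReal.ofReal_le_ofReal
  rw [abs_le]
  constructor
  · linarith [key x y hx hy]
  · exact key y x hy hx

/-- **the measure of the good parameters** -/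
theorem volume_GG (c : ℕ → ℝ) {k : ℝ} (hk : 0 < k) : ∃ a : ℕ → ℝ, (∀ n, 0 ≤ a n) ∧
    (∀ M : ℕ, ∑ n ∈ Finset.range M, (n : ℝ) ^ 2 * a n ≤ ((M : ℝ) + 2) ^ 2 / 4) ∧
    ∀ n, 1 ≤ n → volume (GG c k n) ≤ ENNReal.ofReal (k * (2 / 9) * (a n / n)) := by
  choose L I hL h1 h2 using fun n => grid c (β := 9 / 10 / k ^ n) (by positivity) n
  refine ⟨fun n => ((I n).card : ℝ) / L n, fun n => by positivity, fun M => count c L I hL h2 M,
    fun n hn => ?_⟩
  have hn0 : (0 : ℝ) < n := by exact_mod_cast hn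
  have hL0 : (0 : ℝ) < L n := by exact_mod_cast hL n
  rw [Measure.volume_eq_prod, Measure.prod_apply_symm (measurable_GG c k n)]
  obtain ⟨U, hU⟩ : ∃ U : Set ℝ, U = ⋃ i ∈ I n, Set.Ico ((i : ℝ) / L n) (((i : ℝ) + 1) / L n) :=
    ⟨_, rfl⟩
  have hUm : MeasurableSet U := by
    rw [hU]
    exact Finset.measurableSet_biUnion _ fun i _ => measurableSet_Ico
  have hUv : volume U ≤ ENNReal.ofReal (((I n).card : ℝ) / L n) := by
    rw [hU]
    refine (measure_biUnion_finset_le _ _).trans ?_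
    have e : ∀ i ∈ I n, volume (Set.Ico ((i : ℝ) / L n) (((i : ℝ) + 1) / L n)) =
        ENNReal.ofReal (1 / L n) := by
      intro i _
      rw [Real.volume_Ico]
      congr 1
      ring
    rw [Finset.sum_congr rfl e, Finset.sum_const, nsmul_eq_mul, ← ENNReal.ofReal_natCast,
      ← ENNReal.ofReal_mul (by positivity)]
    apply ENNReal.ofReal_le_ofReal
    apply le_of_eq
    ring
  have hpt : ∀ t : ℝ, volume ((fun s : ℝ => (s, t)) ⁻¹' GG c k n) ≤
      U.indicator (fun _ => ENNReal.ofReal (k * (2 / 9) / n)) t := by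
    intro t
    by_cases hne : ((fun s : ℝ => (s, t)) ⁻¹' GG c k n).Nonempty
    · obtain ⟨s, hs⟩ := hne
      have hsg : SG c (9 / 10 / k ^ n) n t := SG_of_GG hs
      have ht : t ∈ Set.Ico (0 : ℝ) 1 := ⟨hs.1.2.1, hs.1.2.2⟩
      obtain ⟨i, hi, hti⟩ := h1 n t ht hsg
      have htU : t ∈ U := by
        rw [hU]
        exact Set.mem_biUnion hi hti
      rw [Set.indicator_of_mem htU]
      refine le_trans (measure_mono ?_) (section_le (p := (P c n).eval t) hk hn)
      intro s hs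
      exact ⟨hs.1.1, hs.2.1.1⟩
    · rw [Set.not_nonempty_iff_eq_empty] at hne
      rw [hne]
      simp
  refine (lintegral_mono hpt).trans ?_
  rw [lintegral_indicator hUm, lintegral_const, Measure.restrict_apply_univ]
  calc ENNReal.ofReal (k * (2 / 9) / n) * volume U
      ≤ ENNReal.ofReal (k * (2 / 9) / n) * ENNReal.ofReal (((I n).card : ℝ) / L n) := by gcongr
    _ = ENNReal.ofReal (k * (2 / 9) * (((I n).card : ℝ) / L n / n)) := by
        rw [← ENNReal.ofReal_mul (by positivity)]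
        congr 1
        ring

/-- **almost every parameter is good for finitely many `n` only** -/
theorem limsup_null (c : ℕ → ℝ) {k : ℝ} (hk : 0 < k) :
    volume {q : ℝ × ℝ | ∀ N : ℕ, ∃ n, N ≤ n ∧ q ∈ GG c k n} = 0 := by
  obtain ⟨a, ha0, ha, hvol⟩ := volume_GG c hk
  -- bound for each `J`
  have hJ : ∀ J : ℕ, volume {q : ℝ × ℝ | ∀ N : ℕ, ∃ n, N ≤ n ∧ q ∈ GG c k n} ≤
      ENNReal.ofReal (k * (2 / 9) * (8 * (1 / 2) ^ J)) := by
    intro J
    have hsub : {q : ℝ × ℝ | ∀ N : ℕ, ∃ n, N ≤ n ∧ q ∈ GG c k n} ⊆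
        ⋃ n : ℕ, {q | 2 ^ J ≤ n ∧ q ∈ GG c k n} := by
      intro q hq
      obtain ⟨n, hn, hq'⟩ := hq (2 ^ J)
      exact Set.mem_iUnion.2 ⟨n, hn, hq'⟩
    refine (measure_mono hsub).trans ((measure_iUnion_le _).trans ?_)
    rw [ENNReal.tsum_eq_iSup_nat]
    refine iSup_le fun m => ?_
    obtain ⟨K, hK1, hK2⟩ : ∃ K, J ≤ K ∧ m ≤ 2 ^ K :=
      ⟨max J m, le_max_left _ _, (le_max_right J m).trans (Nat.lt_two_pow_self).le⟩
    calc ∑ n ∈ Finset.range m, volume {q | 2 ^ J ≤ n ∧ q ∈ GG c k n}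
        ≤ ∑ n ∈ Finset.range (2 ^ K), volume {q | 2 ^ J ≤ n ∧ q ∈ GG c k n} :=
          Finset.sum_le_sum_of_subset (Finset.range_mono hK2)
      _ = ∑ n ∈ Finset.Ico (2 ^ J) (2 ^ K), volume {q | 2 ^ J ≤ n ∧ q ∈ GG c k n} := by
          symm
          apply Finset.sum_subset
          · intro n hn
            exact Finset.mem_range.2 (Finset.mem_Ico.1 hn).2
          · intro n hn hn'
            have : ¬ 2 ^ J ≤ n := fun h => hn' (Finset.mem_Ico.2 ⟨h, Finset.mem_range.1 hn⟩)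
            have e : {q | 2 ^ J ≤ n ∧ q ∈ GG c k n} = ∅ := by
              ext q
              simp [this]
            rw [e, measure_empty]
      _ ≤ ∑ n ∈ Finset.Ico (2 ^ J) (2 ^ K), ENNReal.ofReal (k * (2 / 9) * (a n / n)) := by
          refine Finset.sum_le_sum fun n hn => ?_
          have hn1 : 1 ≤ n := (Nat.one_le_two_pow).trans (Finset.mem_Ico.1 hn).1
          exact (measure_mono (fun q hq => hq.2)).trans (hvol n hn1)
      _ = ENNReal.ofReal (k * (2 / 9) * ∑ n ∈ Finset.Ico (2 ^ J) (2 ^ K), a n / n) := by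
          rw [Finset.mul_sum, ENNReal.ofReal_sum_of_nonneg]
          intro n _
          have := ha0 n
          positivity
      _ ≤ ENNReal.ofReal (k * (2 / 9) * (8 * (1 / 2) ^ J)) := by
          apply ENNReal.ofReal_le_ofReal
          apply mul_le_mul_of_nonneg_left _ (by positivity)
          have h1 := dyadic a ha0 ha J K hK1
          have : (0 : ℝ) ≤ 8 * (1 / 2) ^ K := by positivity
          linarith
  -- let `J → ∞`
  have hlim : Filter.Tendsto (fun J : ℕ => ENNReal.ofReal (k * (2 / 9) * (8 * (1 / 2) ^ J)))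
      Filter.atTop (nhds 0) := by
    have h1 : Filter.Tendsto (fun J : ℕ => k * (2 / 9) * (8 * (1 / 2 : ℝ) ^ J)) Filter.atTop
        (nhds (k * (2 / 9) * (8 * 0))) :=
      ((tendsto_pow_atTop_nhds_zero_of_lt_one (by norm_num) (by norm_num)).const_mul 8).const_mul _
    rw [mul_zero, mul_zero] at h1
    have h2 := ENNReal.tendsto_ofReal h1
    rwa [ENNReal.ofReal_zero] at h2
  exact le_antisymm (ge_of_tendsto' hlim hJ) zero_le

end Pool.Agent.X143.HC
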